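import Pool.Agent.Q276.HL.Stm

/-! Job GDC of project HL: from a basis to a good form, charts. -/

set_option autoImplicit false

namespace Pool.Agent.Q65.HL

open Pool.Agent.Q276.HL

lemma sq_bd {s t T : ℝ} (h : (s ^ 2 + t ^ 2) * T ^ 2 ≤ 1) : |s| * T ≤ 1 := by
  have h1 : (|s| * T) ^ 2 ≤ 1 := by
    rw [mul_pow, sq_abs]
    nlinarith [sq_nonneg (t * T)]
  exact (abs_le_one_iff_mul_self_le_one.2 (by nlinarith)) |> fun h2 =>
    (le_abs_self _).trans h2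

lemma sq_bd' {s t T : ℝ} (hT : 0 < T) (h : s ^ 2 + t ^ 2 ≤ 8 * T ^ 2) : |s| ≤ 3 * T := by
  have h1 : s ^ 2 ≤ (3 * T) ^ 2 := by
    nlinarith [sq_nonneg t, sq_nonneg T]
  exact abs_le_of_sq_le_sq h1 (by positivity)

/-- Job GDC. -/
theorem gdc : StmtGDC := by
  intro R α V V₀ T hR hα hVR hV₀ hV₀V hV2 hT x y A _ u₁ v₁ u₂ v₂ hdet hv₁ h1 h2
  have hV : 1 ≤ V := hV₀.trans hV₀V
  have hV0 : 0 < V := by linarith
  have hT0 : 0 < T := by linarith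
  have hR0 : 0 < R := by linarith
  have hv₁' : (1 : ℝ) ≤ v₁ := by exact_mod_cast hv₁
  have hdet' : (u₁ : ℝ) * v₂ - u₂ * v₁ = 1 := by exact_mod_cast hdet
  have k1 : qA A x y u₁ v₁ * v₂ ^ 3 + 3 * qB A x y u₁ v₁ u₂ v₂ * v₂ ^ 2 * (-v₁) +
      3 * qC A x y u₁ v₁ u₂ v₂ * v₂ * (-v₁) ^ 2 + qB A x y u₂ v₂ u₁ v₁ * (-v₁) ^ 3 = u₁ := by
    have : qA A x y u₁ v₁ * v₂ ^ 3 + 3 * qB A x y u₁ v₁ u₂ v₂ * v₂ ^ 2 * (-v₁) +
      3 * qC A x y u₁ v₁ u₂ v₂ * v₂ * (-v₁) ^ 2 + qB A x y u₂ v₂ u₁ v₁ * (-v₁) ^ 3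
        = u₁ * (u₁ * v₂ - u₂ * v₁) ^ 3 := by
      unfold qA qB qC
      ring
    rw [this, hdet, one_pow, mul_one]
  have k2 : qB A x y u₁ v₁ u₂ v₂ * v₂ ^ 3 + 3 * qC A x y u₁ v₁ u₂ v₂ * v₂ ^ 2 * (-v₁) +
      3 * qB A x y u₂ v₂ u₁ v₁ * v₂ * (-v₁) ^ 2 + qA A x y u₂ v₂ * (-v₁) ^ 3 = u₂ := by
    have : qB A x y u₁ v₁ u₂ v₂ * v₂ ^ 3 + 3 * qC A x y u₁ v₁ u₂ v₂ * v₂ ^ 2 * (-v₁) +
      3 * qB A x y u₂ v₂ u₁ v₁ * v₂ * (-v₁) ^ 2 + qA A x y u₂ v₂ * (-v₁) ^ 3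
        = u₂ * (u₁ * v₂ - u₂ * v₁) ^ 3 := by
      unfold qA qB qC
      ring
    rw [this, hdet, one_pow, mul_one]
  set s₁ : ℝ := ((u₁ : ℝ) - α * v₁) * V with hs₁
  set t₁ : ℝ := (v₁ : ℝ) / V with ht₁
  set s₂ : ℝ := ((u₂ : ℝ) - α * v₂) * V with hs₂
  set t₂ : ℝ := (v₂ : ℝ) / V with ht₂
  have b1 : |s₁| * T ≤ 1 := sq_bd h1
  have b2 : |s₂| ≤ 3 * T := sq_bd' hT0 h2
  have hd : s₁ * t₂ - s₂ * t₁ = 1 := by
    rw [hs₁, hs₂, ht₁, ht₂]
    field_simp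
    linear_combination hdet'
  have hVp : V₀ ^ 3 ≤ V ^ 3 := pow_le_pow_left₀ (by linarith) hV₀V 3
  have hV3 : 1 ≤ V ^ 3 := one_le_pow₀ hV
  have hV2' : 1 ≤ V ^ 2 := one_le_pow₀ hV
  have hα20 : 20 ≤ α := by rw [← hVR]; nlinarith
  by_cases hcase : V ≤ 10 * (T * v₁)
  · left
    refine ⟨?_, ?_⟩
    · rw [Int.cast_neg, abs_neg, abs_of_nonneg (by linarith : (0 : ℝ) ≤ v₁)]
      have : 0 ≤ T * v₁ := by positivity
      nlinarith
    · rw [k1]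
      -- lower bound for `u₁`
      have c1 : |(u₁ : ℝ) - α * v₁| ≤ 2 := by
        have e : |s₁| = |(u₁ : ℝ) - α * v₁| * V := by
          rw [hs₁, abs_mul, abs_of_pos hV0]
        rw [e] at b1
        have hn := abs_nonneg ((u₁ : ℝ) - α * v₁)
        have : |(u₁ : ℝ) - α * v₁| * (1 / 2) ≤ |(u₁ : ℝ) - α * v₁| * V * T := by
          rw [mul_assoc]
          exact mul_le_mul_of_nonneg_left (by nlinarith) hn
        linarith
      have c2 : α * v₁ / 2 ≤ (u₁ : ℝ) := by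
        have := (abs_le.1 c1).1
        nlinarith
      have c3 : α * v₁ / 2 ≤ |(u₁ : ℝ)| := c2.trans (le_abs_self _)
      have c4 : T * (α * v₁ / 2) ≤ T * |(u₁ : ℝ)| := mul_le_mul_of_nonneg_left c3 hT0.le
      have c5 : R * V ^ 3 ≤ 20 * (T * (α * v₁ / 2)) := by
        have : 20 * (T * (α * v₁ / 2)) = (R * V ^ 2) * (10 * (T * v₁)) := by
          rw [← hVR]; ring
        rw [this]
        have h3 : R * V ^ 3 = (R * V ^ 2) * V := by ring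
        rw [h3]
        exact mul_le_mul_of_nonneg_left hcase (by positivity)
      have c6 : R * V₀ ^ 3 ≤ R * V ^ 3 := mul_le_mul_of_nonneg_left hVp hR0.le
      have c7 : 0 ≤ T * |(u₁ : ℝ)| := by positivity
      linarith
  · right
    push Not at hcase
    have d1 : 10 * (T * t₁) ≤ 1 := by
      rw [ht₁]
      have : 10 * (T * ((v₁ : ℝ) / V)) = 10 * (T * v₁) / V := by ring
      rw [this, div_le_one hV0]
      exact hcase.le
    have ht₁0 : 0 ≤ t₁ := by rw [ht₁]; positivity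
    have d2 : |s₂ * t₁| ≤ 3 / 10 := by
      rw [abs_mul, abs_of_nonneg ht₁0]
      calc |s₂| * t₁ ≤ 3 * T * t₁ := mul_le_mul_of_nonneg_right b2 ht₁0
        _ ≤ 3 / 10 := by linarith
    have d3 : 7 / 10 ≤ |s₁| * |t₂| := by
      rw [← abs_mul]
      have := (abs_le.1 d2).1
      have h3 : s₁ * t₂ = 1 + s₂ * t₁ := by linarith
      rw [h3]
      refine le_trans ?_ (le_abs_self _)
      linarith
    have d4 : 7 / 10 * T ≤ |t₂| := by
      calc 7 / 10 * T ≤ (|s₁| * |t₂|) * T := mul_le_mul_of_nonneg_right d3 hT0.le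
        _ = (|s₁| * T) * |t₂| := by ring
        _ ≤ 1 * |t₂| := mul_le_mul_of_nonneg_right b1 (abs_nonneg _)
        _ = |t₂| := one_mul _
    have d5 : 7 / 10 * (T * V) ≤ |(v₂ : ℝ)| := by
      have e : |t₂| = |(v₂ : ℝ)| / V := by rw [ht₂, abs_div, abs_of_pos hV0]
      rw [e, le_div_iff₀ hV0] at d4
      linarith
    refine ⟨?_, ?_⟩
    · have : T * V₀ ≤ T * V := mul_le_mul_of_nonneg_left hV₀V hT0.le
      have h3 := abs_nonneg (v₂ : ℝ)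
      linarith
    · rw [k2]
      have c1 : |(u₂ : ℝ) - α * v₂| ≤ 3 * T := by
        have e : |s₂| = |(u₂ : ℝ) - α * v₂| * V := by
          rw [hs₂, abs_mul, abs_of_pos hV0]
        rw [e] at b2
        have hn := abs_nonneg ((u₂ : ℝ) - α * v₂)
        have : |(u₂ : ℝ) - α * v₂| * 1 ≤ |(u₂ : ℝ) - α * v₂| * V :=
          mul_le_mul_of_nonneg_left hV hn
        linarith
      have c2 : α * |(v₂ : ℝ)| - 3 * T ≤ |(u₂ : ℝ)| := by
        have h3 : |α * (v₂ : ℝ)| - |(u₂ : ℝ)| ≤ |α * (v₂ : ℝ) - u₂| := abs_sub_abs_le_abs_sub _ _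
        rw [abs_mul, abs_of_pos hα, abs_sub_comm] at h3
        linarith
      have c3 : α * (7 / 10 * (T * V)) ≤ α * |(v₂ : ℝ)| := mul_le_mul_of_nonneg_left d5 hα.le
      have c4 : α * (7 / 10 * (T * V)) = 7 / 10 * (R * (T * V ^ 3)) := by rw [← hVR]; ring
      have c5 : 20 * T ≤ R * (T * V ^ 3) := by
        have : T ≤ T * V ^ 3 := le_mul_of_one_le_right hT0.le hV3
        calc 20 * T ≤ R * T := mul_le_mul_of_nonneg_right hR hT0.le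
          _ ≤ R * (T * V ^ 3) := mul_le_mul_of_nonneg_left this hR0.le
      have c6 : R * (T * V₀ ^ 3) ≤ R * (T * V ^ 3) :=
        mul_le_mul_of_nonneg_left (mul_le_mul_of_nonneg_left hVp hT0.le) hR0.le
      have c7 : 0 ≤ R * (T * V ^ 3) := by positivity
      linarith

end Pool.Agent.Q65.HL
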